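import Pool.Agent.H7.TRN.Gen

/-!
# TRN: all savings from two layers
-/

set_option autoImplicit false

namespace Pool.TRN

open MvPolynomial Pool.FOS

/-- Even savings. -/
theorem gen_even (k d j Q : ℕ) (hkd : 2 * k ≤ d + 3) (hj : Even j)
    (hQ : Q + (j + 2) / 4 + 1 = k) (hQ2 : 2 ≤ Q) (h : j * (d + 1) + Q ≤ Q * (2 * k + Q) + 2) :
    GenLe 3 k d (k ^ 2 - j) := by
  obtain ⟨c, hc⟩ := hj
  rcases Nat.even_or_odd c with ⟨a, ha⟩ | ⟨b, hb⟩
  · -- `j = 4 a`
    have hj4 : j = 4 * a := by omega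
    have hQa : Q + a + 1 = k := by omega
    obtain ⟨i, hi1, hi2⟩ := thick (a * (d + 2)) Q (by omega)
    obtain ⟨K, hK⟩ : ∃ K, K + 2 = k := ⟨k - 2, by omega⟩
    obtain ⟨P, hP⟩ : ∃ P, P + 1 = Q := ⟨Q - 1, by omega⟩
    subst hj4
    have e1 : 4 * a * (d + 1) = 4 * (a * d) + 4 * a := by ring
    have e2 : a * (d + 2) = a * d + 2 * a := by ring
    have hik : i + 1 ≤ k := by
      by_contra hcon
      push Not at hcon
      have h1 : k * Q ≤ i * Q := Nat.mul_le_mul_right _ (by omega)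
      have h2 : k * Q = Q * Q + a * Q + Q := by rw [← hQa]; ring
      have h3 : a * 2 ≤ a * Q := Nat.mul_le_mul_left _ hQ2
      have h4 : Q * (2 * k + Q) = 2 * (k * Q) + Q * Q := by ring
      nlinarith
    have key := gen_two k d K a a i Q P hK hkd hik hQa (by omega)
      (by rw [hP]; exact hi1) ?_
    · have e3 : K ^ 2 + (2 * Q + 1 + (2 * P + 1)) = k ^ 2 - 4 * a := by
        have e4 : k ^ 2 = K ^ 2 + (2 * Q + 1 + (2 * P + 1)) + 4 * a := by
          have : K + 1 = Q + a := by omega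
          rw [← hK]
          have e5 : (K + 2) ^ 2 = K ^ 2 + 4 * K + 4 := by ring
          omega
        omega
      rw [← e3]
      exact key
    · have h4 : Q * (2 * k + Q) = 2 * (k * Q) + Q * Q := by ring
      have h5 : Q * (2 * k + 1 + Q) = 2 * (k * Q) + Q * Q + Q := by ring
      omega
  · -- `j = 4 b + 2`
    have hj4 : j = 4 * b + 2 := by omega
    have hQb : Q + b + 2 = k := by omega
    obtain ⟨i, hi1, hi2⟩ := thick (b * (d + 2)) (Q + 1) (by omega)
    obtain ⟨K, hK⟩ : ∃ K, K + 2 = k := ⟨k - 2, by omega⟩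
    subst hj4
    have e1 : (4 * b + 2) * (d + 1) = 4 * (b * d) + 4 * b + 2 * d + 2 := by ring
    have e2 : b * (d + 2) = b * d + 2 * b := by ring
    have e6 : i * (Q + 1) = i * Q + i := by ring
    have hik : i + 1 ≤ k := by
      by_contra hcon
      push Not at hcon
      have h1 : k * Q ≤ i * Q := Nat.mul_le_mul_right _ (by omega)
      have h2 : k * Q = Q * Q + b * Q + 2 * Q := by rw [← hQb]; ring
      have h4 : Q * (2 * k + Q) = 2 * (k * Q) + Q * Q := by ring
      nlinarith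
    have key := gen_two k d K (b + 1) b i Q Q hK hkd hik (by omega) hQb hi1 ?_
    · have e3 : K ^ 2 + (2 * Q + 1 + (2 * Q + 1)) = k ^ 2 - (4 * b + 2) := by
        have e4 : k ^ 2 = K ^ 2 + (2 * Q + 1 + (2 * Q + 1)) + (4 * b + 2) := by
          rw [← hK]
          have e5 : (K + 2) ^ 2 = K ^ 2 + 4 * K + 4 := by ring
          omega
        omega
      rw [← e3]
      exact key
    · have h4 : Q * (2 * k + Q) = 2 * (k * Q) + Q * Q := by ring
      have h5 : Q * (2 * k + 1 + Q) = 2 * (k * Q) + Q * Q + Q := by ring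
      have h6 : (b + 1) * d = b * d + d := by ring
      omega

/-- Odd savings. -/
theorem gen_odd (hbox : BoxStmt) (k d j Q : ℕ) (hkd : 2 * k ≤ d + 3) (hj : Odd j)
    (hQ : Q + (j + 1) / 4 + 3 = k) (hQ2 : 2 ≤ Q)
    (h : 2 * j * d + k ≤ 26 + 10 * Q + 4 * k * Q + 2 * Q ^ 2) :
    GenLe 3 k d (k ^ 2 - j) := by
  obtain ⟨c, hc⟩ := hj
  have q1 : 4 * k * Q = 4 * (k * Q) := by ring
  have q2 : Q ^ 2 = Q * Q := by ring
  obtain ⟨K, hK⟩ : ∃ K, K + 2 = k := ⟨k - 2, by omega⟩
  rcases Nat.even_or_odd c with ⟨u, hu⟩ | ⟨u, hu⟩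
  · -- `j = 4 u + 1`
    have hj4 : j = 4 * u + 1 := by omega
    have hQu : Q + u + 3 = k := by omega
    obtain ⟨P, hP⟩ : ∃ P, P + 1 = Q := ⟨Q - 1, by omega⟩
    subst hj4
    obtain ⟨i, hi1, hi2⟩ := thick ((8 * u + 2) * d + 9 * k - (37 + 16 * Q)) (8 * Q) (by omega)
    have e1 : 2 * (4 * u + 1) * d = (8 * u + 2) * d := by ring
    have e6 : i * (8 * Q) = 8 * (i * Q) := by ring
    rw [e1, q1, q2] at h
    rw [e6] at hi1 hi2
    have hkQ : k * Q = Q * Q + u * Q + 3 * Q := by rw [← hQu]; ring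
    have hik : i ≤ k := by
      by_contra hcon
      push Not at hcon
      have h1 : (k + 1) * Q ≤ i * Q := Nat.mul_le_mul_right _ hcon
      have h2 : (k + 1) * Q = k * Q + Q := by ring
      have h3 : u * 2 ≤ u * Q := Nat.mul_le_mul_left _ hQ2
      have h4 : 2 * Q ≤ Q * Q := Nat.mul_le_mul_right _ hQ2
      omega
    have key := gen_box hbox k d K u u i Q P hK hkd hik (by omega) (by omega) (by omega)
      ?_ ?_
    · have e3 : K ^ 2 + (7 + (2 * Q + 1 + (2 * P + 1))) = k ^ 2 - (4 * u + 1) := by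
        have e4 : k ^ 2 = K ^ 2 + (7 + (2 * Q + 1 + (2 * P + 1))) + (4 * u + 1) := by
          rw [← hK]
          have e5 : (K + 2) ^ 2 = K ^ 2 + 4 * K + 4 := by ring
          omega
        omega
      rw [← e3]
      exact key
    · rw [hP]
      omega
    · have h5 : Q * (12 + 8 * k + 4 * Q) = 12 * Q + 8 * (k * Q) + 4 * (Q * Q) := by ring
      rw [h5]
      have h7 : i = 0 ∨ 1 ≤ i := by omega
      rcases h7 with rfl | h7
      · simp only [zero_mul, mul_zero, add_zero] at hi1 ⊢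
        omega
      · have h8 : 1 * Q ≤ i * Q := Nat.mul_le_mul_right _ h7
        omega
  · -- `j = 4 u + 3`
    have hj4 : j = 4 * u + 3 := by omega
    have hQu : Q + u + 4 = k := by omega
    subst hj4
    obtain ⟨i, hi1, hi2⟩ := thick ((8 * u + 2) * d + 9 * k - (53 + 16 * Q)) (8 * (Q + 1))
      (by omega)
    have e1 : 2 * (4 * u + 3) * d = (8 * u + 2) * d + 4 * d := by ring
    have e6 : i * (8 * (Q + 1)) = 8 * (i * Q) + 8 * i := by ring
    rw [e1, q1, q2] at h
    rw [e6] at hi1 hi2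
    have hkQ : k * Q = Q * Q + u * Q + 4 * Q := by rw [← hQu]; ring
    have hik : i ≤ k := by
      by_contra hcon
      push Not at hcon
      have h1 : (k + 1) * Q ≤ i * Q := Nat.mul_le_mul_right _ hcon
      have h2 : (k + 1) * Q = k * Q + Q := by ring
      have h3 : u * 2 ≤ u * Q := Nat.mul_le_mul_left _ hQ2
      have h4 : 2 * Q ≤ Q * Q := Nat.mul_le_mul_right _ hQ2
      omega
    have key := gen_box hbox k d K (u + 1) u i Q Q hK hkd hik (by omega) (by omega) (by omega)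
      ?_ ?_
    · have e3 : K ^ 2 + (7 + (2 * Q + 1 + (2 * Q + 1))) = k ^ 2 - (4 * u + 3) := by
        have e4 : k ^ 2 = K ^ 2 + (7 + (2 * Q + 1 + (2 * Q + 1))) + (4 * u + 3) := by
          rw [← hK]
          have e5 : (K + 2) ^ 2 = K ^ 2 + 4 * K + 4 := by ring
          omega
        omega
      rw [← e3]
      exact key
    · have h5 : 8 * (i * (Q + 1)) = 8 * (i * Q) + 8 * i := by ring
      rw [h5]
      omega
    · have h5 : Q * (12 + 8 * k + 4 * Q) = 12 * Q + 8 * (k * Q) + 4 * (Q * Q) := by ring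
      have h6 : (8 * (u + 1) + 2) * d = (8 * u + 2) * d + 8 * d := by ring
      rw [h5, h6]
      have h9 : 2 * d ≤ (8 * u + 2) * d := Nat.mul_le_mul_right _ (by omega)
      have h7 : i = 0 ∨ 1 ≤ i := by omega
      rcases h7 with rfl | h7
      · simp only [zero_mul, mul_zero, add_zero] at hi1 ⊢
        omega
      · have h8 : 1 * Q ≤ i * Q := Nat.mul_le_mul_right _ h7
        omega

end Pool.TRN
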