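import Mathlib

/-!
# TRN: numbers, at most one more than the dimension count
-/

set_option autoImplicit false

namespace Pool.TRN

theorem num_o (k D : ℤ) (hk : 1 ≤ k) (hD : 6 * k ^ 3 ≤ D ^ 2) :
    12 * k ^ 3 - 27 * k ^ 2 + 15 * k + (18 * k - 24) * D ≤ 4 * D ^ 2 := by
  have h : 4 * D ^ 2 - (12 * k ^ 3 - 27 * k ^ 2 + 15 * k + (18 * k - 24) * D) =
      (D - (9 * k - 12)) ^ 2 + 3 * (D ^ 2 - 6 * k ^ 3) +
        (6 * ((k - 1) * (k - 4) ^ 2) + 57 * (k - 1) + 9) := by ring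
  have h1 : 0 ≤ (k - 1) * (k - 4) ^ 2 := mul_nonneg (by linarith) (sq_nonneg _)
  nlinarith [sq_nonneg (D - (9 * k - 12))]

/-- The dimension count in one inequality. -/
theorem num_s (k D J : ℤ) (hk : 1 ≤ k) (hD : 1 ≤ D)
    (h : (k * (D - 1) + 1) * (k * (D - 1) + 2) ≤ (k ^ 2 - J) * (D * (D + 1))) :
    J * D ≤ 3 * k * (k - 1) := by
  by_contra hcon
  push Not at hcon
  have h1 : (3 * k * (k - 1) + 1) * (D + 1) ≤ (J * D) * (D + 1) :=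
    mul_le_mul_of_nonneg_right (by linarith) (by linarith)
  nlinarith [mul_nonneg (by linarith : (0 : ℤ) ≤ k - 1) (by linarith : (0 : ℤ) ≤ k)]

theorem num_j (k D J : ℤ) (hk : 1 ≤ k) (hJ : 0 ≤ J) (hD : 1 ≤ D) (h6 : 6 * k ^ 3 ≤ D ^ 2)
    (h : J * D ≤ 3 * k * (k - 1)) : 2 * J ^ 2 * k ≤ 3 * (k - 1) ^ 2 := by
  have h1 : (J * D) ^ 2 ≤ (3 * k * (k - 1)) ^ 2 := by
    have : 0 ≤ J * D := mul_nonneg hJ (by linarith)
    nlinarith
  have h2 : J ^ 2 * (6 * k ^ 3) ≤ J ^ 2 * D ^ 2 := mul_le_mul_of_nonneg_left h6 (sq_nonneg _)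
  have h3 : 3 * k ^ 2 * (2 * J ^ 2 * k) ≤ 3 * k ^ 2 * (3 * (k - 1) ^ 2) := by nlinarith
  exact le_of_mul_le_mul_left h3 (by positivity)

theorem num_odd (k D J r : ℤ) (hk : 2 ≤ k) (hD : 1 ≤ D) (_hr : 0 ≤ r) (h6 : 6 * k ^ 3 ≤ D ^ 2)
    (h : J * D ≤ 3 * k * (k - 1)) (h4 : 4 * r ≤ J) :
    2 * (J - 1) * (D - 1) + k ≤ 26 + 10 * (k - 3 - r) + 4 * k * (k - 3 - r) +
      2 * (k - 3 - r) ^ 2 := by
  have h1 := num_o k D (by linarith) h6
  have h2 : (4 * k - 5) * (J * D) ≤ (4 * k - 5) * (3 * k * (k - 1)) :=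
    mul_le_mul_of_nonneg_left h (by linarith)
  have h3 : 0 ≤ 4 * D - (18 * k - 24) - J * (4 * k - 5) := by
    by_contra hcon
    push Not at hcon
    have h5 : (4 * D - (18 * k - 24) - J * (4 * k - 5)) * D < 0 :=
      mul_neg_of_neg_of_pos hcon (by linarith)
    nlinarith
  have h7 : 4 * r * (4 * k - 1) ≤ J * (4 * k - 1) := mul_le_mul_of_nonneg_right h4 (by linarith)
  nlinarith [sq_nonneg r]

theorem num_even (k D J r : ℤ) (hk : 2 ≤ k) (hD : k ≤ D) (_hr : 0 ≤ r) (h6 : 6 * k ^ 3 ≤ D ^ 2)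
    (h : J * D ≤ 3 * k * (k - 1)) (h4 : 4 * r ≤ J + 1) :
    (J - 1) * D + (k - 1 - r) ≤ (k - 1 - r) * (2 * k + (k - 1 - r)) + 2 := by
  have h1 := num_o k D (by linarith) h6
  have h2 : (4 * k - 3) * (J * D) ≤ (4 * k - 3) * (3 * k * (k - 1)) :=
    mul_le_mul_of_nonneg_left h (by linarith)
  have h8 : (6 * k - 5) * k ≤ (6 * k - 5) * D := mul_le_mul_of_nonneg_left hD (by linarith)
  have h3 : 0 ≤ 4 * D - (8 * k - 16) - (J + 1) * (4 * k - 3) := by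
    by_contra hcon
    push Not at hcon
    have h5 : (4 * D - (8 * k - 16) - (J + 1) * (4 * k - 3)) * D < 0 :=
      mul_neg_of_neg_of_pos hcon (by linarith)
    nlinarith
  have h7 : 4 * r * (4 * k - 3) ≤ (J + 1) * (4 * k - 3) :=
    mul_le_mul_of_nonneg_right h4 (by linarith)
  nlinarith [sq_nonneg r]

end Pool.TRN
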