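import Pool.Agent.H7.TRN.All
import Pool.Agent.H7.TRN.Pls
import Pool.Agent.H24.TRN.Box7

/-!
# TRN: ternary forms, all savings
-/

set_option autoImplicit false

namespace Pool.TRN

open MvPolynomial Pool.FOS

theorem box_all : BoxStmt := fun A B m h => Pool.B7.box7 A B m h

/-- The generic rank is `k ^ 2 - 1`. -/
theorem one_less (k d : ℕ) (hk : 5 ≤ k) (h1 : 3 * k ^ 2 ≤ 2 * d + 3 * k + 4)
    (h2 : 2 * d + 15 * k ≤ 6 * k ^ 2 + 14) : GenRk 3 k d (k ^ 2 - 1) := by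
  obtain ⟨Q, hQ⟩ : ∃ Q, Q + 3 = k := ⟨k - 3, by omega⟩
  have hkd : 2 * k ≤ d + 3 := by nlinarith
  have hg : GenLe 3 k d (k ^ 2 - 1) := by
    refine gen_odd box_all k d 1 Q hkd odd_one (by omega) (by omega) ?_
    subst hQ
    nlinarith
  refine exact_of k d _ (by omega) (by omega) hg ?_ ?_
  · have : 5 * 5 ≤ k ^ 2 := by nlinarith
    omega
  · obtain ⟨c, rfl⟩ : ∃ c, k = c + 5 := ⟨k - 5, by omega⟩
    have e : (c + 5) ^ 2 - 1 - 1 = c ^ 2 + 10 * c + 23 := by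
      have : (c + 5) ^ 2 = c ^ 2 + 10 * c + 25 := by ring
      omega
    rw [e]
    obtain ⟨x, hx⟩ : ∃ x, 2 * d = 3 * c ^ 2 + 27 * c + 56 + x := by
      refine ⟨2 * d - (3 * c ^ 2 + 27 * c + 56), ?_⟩
      have : 3 * (c + 5) ^ 2 = 3 * c ^ 2 + 30 * c + 75 := by ring
      omega
    have h5 : (3 * c ^ 2 + 27 * c + 54) * d + (2 * c ^ 2 + 20 * c + 44) < 2 * d * d := by
      have h6 : 2 * d * d = (3 * c ^ 2 + 27 * c + 56 + x) * d := by rw [hx]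
      have h7 : (3 * c ^ 2 + 27 * c + 56 + x) * d =
        (3 * c ^ 2 + 27 * c + 54) * d + (2 * d + x * d) := by ring
      have h8 : 0 ≤ x * d := Nat.zero_le _
      rw [h6, h7]
      have h9 : 2 * c ^ 2 ≤ 3 * c ^ 2 := Nat.mul_le_mul_right _ (by norm_num)
      omega
    nlinarith

/-- The lower bound and the upper bound agree. -/
theorem rk_of (k d j : ℕ) (hk : 2 ≤ k) (hd : 1 ≤ d) (hj : j + 1 ≤ k ^ 2)
    (h : GenLe 3 k d (k ^ 2 - j)) :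
    GenLe 3 k d (k ^ 2 - j) ∧
      ((k ^ 2 - j - 1) * ((d + 1) * (d + 2)) < (k * d + 1) * (k * d + 2) →
        GenRk 3 k d (k ^ 2 - j)) :=
  ⟨h, fun hl => exact_of k d _ hk hd h (by omega) hl⟩

/-- **All savings.** -/
theorem trn_two (k d : ℕ) (hk : 2 ≤ k) (hd : 1 ≤ d) (hkd : 2 * k ≤ d + 3) :
    (∀ j Q : ℕ, Even j → Q + (j + 2) / 4 + 1 = k → 2 ≤ Q →
      j * (d + 1) + Q ≤ Q * (2 * k + Q) + 2 → GenLe 3 k d (k ^ 2 - j) ∧
      ((k ^ 2 - j - 1) * ((d + 1) * (d + 2)) < (k * d + 1) * (k * d + 2) →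
        GenRk 3 k d (k ^ 2 - j))) ∧
    (∀ j Q : ℕ, Odd j → Q + (j + 1) / 4 + 3 = k → 2 ≤ Q →
      2 * j * d + k ≤ 26 + 10 * Q + 4 * k * Q + 2 * Q ^ 2 → GenLe 3 k d (k ^ 2 - j) ∧
      ((k ^ 2 - j - 1) * ((d + 1) * (d + 2)) < (k * d + 1) * (k * d + 2) →
        GenRk 3 k d (k ^ 2 - j))) ∧
    (5 ≤ k → 3 * k ^ 2 ≤ 2 * d + 3 * k + 4 → 2 * d + 15 * k ≤ 6 * k ^ 2 + 14 →
      GenRk 3 k d (k ^ 2 - 1)) := by
  refine ⟨fun j Q hj hQ hQ2 h => rk_of k d j hk hd ?_ (gen_even k d j Q hkd hj hQ hQ2 h),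
    fun j Q hj hQ hQ2 h => rk_of k d j hk hd ?_ (gen_odd box_all k d j Q hkd hj hQ hQ2 h),
    fun h5 h6 h7 => one_less k d h5 h6 h7⟩
  · have : k ^ 2 = k * k := sq k
    nlinarith [Nat.div_add_mod (j + 2) 4, Nat.mod_lt (j + 2) (by norm_num : 4 > 0)]
  · have : k ^ 2 = k * k := sq k
    nlinarith [Nat.div_add_mod (j + 1) 4, Nat.mod_lt (j + 1) (by norm_num : 4 > 0)]

end Pool.TRN
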