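import Mathlib

/-!
# TRN: the numbers for two layers
-/

set_option autoImplicit false

namespace Pool.TRN

/-- Twice a triangular number. -/
theorem two_tri (P : ℕ) : 2 * (P * (P - 1) / 2) = P * (P - 1) := by
  rcases P with _ | P
  · rfl
  · rw [Nat.add_sub_cancel]
    have h : 2 ∣ (P + 1) * P := by
      rcases Nat.even_or_odd P with h | h
      · exact Dvd.dvd.mul_left h.two_dvd _
      · exact Dvd.dvd.mul_right (h.add_one).two_dvd _
    exact Nat.mul_div_cancel' h

theorem sq_le_tri (P : ℕ) : P * P = P * (P - 1) + P := by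
  rcases P with _ | P
  · rfl
  · rw [Nat.add_sub_cancel]; ring

/-- The thickness. -/
theorem thick (N M : ℕ) (hM : 1 ≤ M) : ∃ i, N ≤ i * M ∧ i * M + 1 ≤ N + M := by
  refine ⟨(N + M - 1) / M, ?_, ?_⟩
  · have h := Nat.lt_div_mul_add (a := N + M - 1) (b := M) hM
    omega
  · have h := Nat.div_mul_le_self (N + M - 1) M
    omega

end Pool.TRN
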