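import Pool.Agent.H7.TRN.Two
import Pool.Agent.H7.TRN.Num
import Pool.Agent.H49.TRN.All

/-!
# TRN: generic ranks from two layers
-/

set_option autoImplicit false

namespace Pool.TRN

open MvPolynomial Pool.FOS

/-- From the triangle to the general form. -/
theorem gen_of_cov (k d s : ℕ) (hk : 1 ≤ k) (hs : Cov (d + 1) s (Tri (k * d))) :
    GenLe 3 k d s := by
  obtain ⟨P, hP⟩ := t_vnt t_dif (d + 1) s (k * d) hs
  exact t_ter t_jac t_dom 3 k d s (by omega) (t_ong t_du1 t_du2 1 k d s P hk hP)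

/-- Even savings, general thickness. -/
theorem gen_two (k d K a b i P₁ P₂ : ℕ) (hK : K + 2 = k) (hkd : 2 * k ≤ d + 3)
    (hi : i + 1 ≤ k) (ha : P₁ + a + 1 = k) (hb : P₂ + b + 2 = k)
    (hU : b * (d + 2) ≤ i * (P₂ + 1)) (hL : 2 * (a * d) + 2 * (i * P₁) ≤ P₁ * (2 * k + 1 + P₁)) :
    GenLe 3 k d (K ^ 2 + (2 * P₁ + 1 + (2 * P₂ + 1))) := by
  obtain ⟨H, hH⟩ : ∃ H, H + k = d + 2 + i := ⟨d + 2 + i - k, by omega⟩
  obtain ⟨g, hg⟩ : ∃ g, g + i = d + 1 := ⟨d + 1 - i, by omega⟩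
  obtain ⟨W, hW⟩ : ∃ W, W + i = d + 1 + k := ⟨d + 1 + k - i, by omega⟩
  obtain ⟨β, hβ⟩ : ∃ β, β + 2 * k = d + 4 + i := ⟨d + 4 + i - 2 * k, by omega⟩
  have t1 := two_tri P₁
  have t2 := sq_le_tri P₁
  have e1 : P₁ * W + P₁ * i = P₁ * (d + 1 + k) := by rw [← hW]; ring
  have e2 : k * d = P₁ * d + a * d + d := by rw [← ha]; ring
  have e3 : k * d = P₂ * d + b * d + 2 * d := by rw [← hb]; ring
  have e4 : (d + 2) * H + (d + 2) * k = (d + 2) * (d + 2 + i) := by rw [← hH]; ring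
  have e5 : (d + 1) * β + (d + 1) * (2 * k) = (d + 1) * (d + 4 + i) := by rw [← hβ]; ring
  have e6 : k * d = K * d + 2 * d := by rw [← hK]; ring
  have e7 : 2 * k * (d + 1) ≤ (d + 3) * (d + 1) := Nat.mul_le_mul_right _ hkd
  refine gen_of_cov k d _ (by omega) (tri_two d H g (k * d) K W (d + 2 + i) P₁ P₂ β ?_ ?_ ?_ ?_ ?_
    ?_ ?_ ?_)
  · have : K * (d + 1) = K * d + K := by ring
    omega
  · omega
  · omega
  · nlinarith
  · omega
  · nlinarith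
  · nlinarith
  · nlinarith

/-- Odd savings, general thickness. -/
theorem gen_box (hbox : BoxStmt) (k d K a b i P₁ P₂ : ℕ) (hK : K + 2 = k)
    (hkd : 2 * k ≤ d + 3) (hi : i ≤ k) (hid : i ≤ d) (ha : P₁ + a + 3 = k) (hb : P₂ + b + 4 = k)
    (hU : (8 * b + 2) * d + 9 * k < 54 + 16 * P₂ + 8 * (i * (P₂ + 1)))
    (hL : (8 * a + 2) * d + 8 * (i * P₁) ≤ 14 + 7 * k + P₁ * (12 + 8 * k + 4 * P₁)) :
    GenLe 3 k d (K ^ 2 + (7 + (2 * P₁ + 1 + (2 * P₂ + 1)))) := by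
  obtain ⟨H, hH⟩ : ∃ H, H + k = d + 2 + i := ⟨d + 2 + i - k, by omega⟩
  obtain ⟨g, hg⟩ : ∃ g, g + i = d + 1 := ⟨d + 1 - i, by omega⟩
  obtain ⟨W, hW⟩ : ∃ W, W + i = d + 2 + k := ⟨d + 2 + k - i, by omega⟩
  obtain ⟨β, hβ⟩ : ∃ β, β + 2 * k = d + 4 + i := ⟨d + 4 + i - 2 * k, by omega⟩
  obtain ⟨l, hl⟩ : ∃ l, l = (14 * d + 21 + 7 * k) / 8 := ⟨_, rfl⟩
  have t1 := two_tri P₁
  have t2 := sq_le_tri P₁
  have e1 : P₁ * W + P₁ * i = P₁ * (d + 2 + k) := by rw [← hW]; ring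
  have e2 : k * d = P₁ * d + a * d + 3 * d := by rw [← ha]; ring
  have e3 : k * d = P₂ * d + b * d + 4 * d := by rw [← hb]; ring
  have e4 : (d + 2) * H + (d + 2) * k = (d + 2) * (d + 2 + i) := by rw [← hH]; ring
  have e5 : (d + 1) * β + (d + 1) * (2 * k) = (d + 1) * (d + 4 + i) := by rw [← hβ]; ring
  have e6 : k * d = K * d + 2 * d := by rw [← hK]; ring
  have e7 : 2 * k * (d + 1) ≤ (d + 3) * (d + 1) := Nat.mul_le_mul_right _ hkd
  have l1 : 8 * l ≤ 14 * d + 21 + 7 * k := by omega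
  have l2 : 14 * d + 14 + 7 * k ≤ 8 * l := by omega
  refine gen_of_cov k d _ (by omega) (tri_box hbox d H g (k * d) K l W (d + 2 + i) P₁ P₂ β ?_ ?_ ?_
    ?_ ?_ ?_ ?_ ?_ ?_ ?_ ?_)
  · have : K * (d + 1) = K * d + K := by ring
    omega
  · omega
  · omega
  · omega
  · omega
  · omega
  · nlinarith
  · omega
  · nlinarith
  · nlinarith
  · have e8 : 8 * (P₂ * (d + 2 + i)) = 8 * (P₂ * d) + 16 * P₂ + 8 * (P₂ * i) := by ring
    have e9 : (8 * b + 2) * d = 8 * (b * d) + 2 * d := by ring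
    have e10 : i * (P₂ + 1) = P₂ * i + i := by ring
    omega

end Pool.TRN
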