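import Pool.Agent.H49.TRN.CUT
import Pool.Agent.H55.TRN.SBS
import Pool.Agent.H85.TRN.ST
import Pool.Agent.H97.TRN.PEL

/-!
# TRN: layers between two parallel lines, cut into pieces by columns
-/

set_option autoImplicit false

namespace Pool.TRN

open MvPolynomial Pool.FOS

/-- The two coordinates may be exchanged. -/
theorem cov_swap (m s : ℕ) (D : Finset (ℕ × ℕ)) (h : Cov m s (D.image Prod.swap)) :
    Cov m s D := by
  classical
  obtain ⟨P, hP⟩ := h
  refine ⟨fun i => ((P i).2, (P i).1), fun c hc a ha => ?_⟩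
  have h1 := hP (fun a => c (a.2, a.1)) ?_ (a.2, a.1) (Finset.mem_image_of_mem Prod.swap ha)
  · exact h1
  · intro i q hq
    have h2 := hc i (rename (Equiv.swap 0 1) q) ((totalDegree_rename_le _ _).trans_lt hq)
    rw [Finset.sum_image (fun x _ y _ h => Prod.swap_injective h), ← h2]
    refine Finset.sum_congr rfl fun b _ => ?_
    have h3 : ev (Prod.swap b) q = ev b (rename (Equiv.swap 0 1) q) := by
      simp only [ev, eval_rename, Prod.swap]
      congr 1
      congr 1
      funext i
      fin_cases i <;> simp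
    rw [h3]
    simp only [Prod.swap]
    ring

/-- One point suffices for a region with columns of different (bounded) heights. -/
theorem pel_col (m : ℕ) (D : Finset (ℕ × ℕ)) (f l r : ℕ → ℕ)
    (hD : ∀ b ∈ D, l b.1 ≤ b.2 ∧ b.2 < r b.1)
    (hm : ∀ b ∈ D, r b.1 - l b.1 + f b.1 ≤ m)
    (hf : ∀ a ∈ D, ∀ b ∈ D, f a.1 = f b.1 → a.1 = b.1) : Cov m 1 D := by
  classical
  refine cov_swap m 1 D (St.piece t_pel m 0 _ f l r ?_ ?_ ?_)
  · intro b hb
    obtain ⟨a, ha, rfl⟩ := Finset.mem_image.1 hb
    simpa using hD a ha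
  · intro b hb
    obtain ⟨a, ha, rfl⟩ := Finset.mem_image.1 hb
    simpa using hm a ha
  · intro b hb b' hb' h
    obtain ⟨a, ha, rfl⟩ := Finset.mem_image.1 hb
    obtain ⟨a', ha', rfl⟩ := Finset.mem_image.1 hb'
    simpa using hf a ha a' ha' (by simpa using h)

/-- A layer: `2 n + 1` points. -/
theorem layer (m v₁ v₂ : ℕ) (E : Finset (ℕ × ℕ)) (bot top : ℕ → ℕ)
    (hE : ∀ a ∈ E, bot a.1 ≤ a.2 ∧ a.2 < top a.1)
    (hcut : ∀ t : ℕ, ∀ a ∈ E, ∀ b ∈ E, a.1 + a.2 < t + bot a.1 → t + bot b.1 ≤ b.1 + b.2 →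
      v₁ * a.1 + v₂ * a.2 < v₁ * b.1 + v₂ * b.2) :
    ∀ (n : ℕ) (x : ℕ → ℕ) (E' : Finset (ℕ × ℕ)), E' ⊆ E → (∀ a ∈ E', x 0 ≤ a.1) →
      (∀ p < n, x p ≤ x (p + 1)) →
      (∀ p < n, ∀ a ∈ E', x p ≤ a.1 → top a.1 + x (p + 1) ≤ bot a.1 + 2 * m + 1 + x p) →
      (∀ a ∈ E', x n ≤ a.1 → a.1 + a.2 < m + x n + bot a.1) →
      Cov m (2 * n + 1) E' := by
  classical
  intro n
  induction n with
  | zero =>
    intro x E' hE' h0 _ _ hlast
    refine pel_col m E' (fun y => y - x 0) bot (fun y => m + x 0 + bot y - y) ?_ ?_ ?_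
    · intro b hb
      have h1 := hE b (hE' hb)
      have h2 := hlast b hb (h0 b hb)
      omega
    · intro b hb
      have h1 := hE b (hE' hb)
      have h2 := hlast b hb (h0 b hb)
      have h3 := h0 b hb
      omega
    · intro a ha b hb hab
      have h3 := h0 a ha
      have h4 := h0 b hb
      omega
  | succ n ih =>
    intro x E' hE' h0 hx hstep hlast
    have hs := hstep 0 (by omega)
    have hx0 := hx 0 (by omega)
    set A := E'.filter fun a => a.1 + a.2 < m + x 0 + bot a.1 with hA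
    set R := E'.filter fun a => m + x 0 + bot a.1 ≤ a.1 + a.2 with hR
    set R1 := R.filter fun a => a.1 < x 1 with hR1
    set R2 := E'.filter fun a => x 1 ≤ a.1 with hR2
    have cA : Cov m 1 A := by
      refine pel_col m A (fun y => y - x 0) bot (fun y => m + x 0 + bot y - y) ?_ ?_ ?_
      · intro b hb
        obtain ⟨h5, h6⟩ := Finset.mem_filter.1 hb
        have h1 := hE b (hE' h5)
        omega
      · intro b hb
        obtain ⟨h5, h6⟩ := Finset.mem_filter.1 hb
        have h1 := hE b (hE' h5)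
        have h3 := h0 b h5
        omega
      · intro a ha b hb hab
        have h3 := h0 a (Finset.mem_filter.1 ha).1
        have h4 := h0 b (Finset.mem_filter.1 hb).1
        omega
    have cR1 : Cov m 1 R1 := by
      refine pel_col m R1 (fun y => x 1 - 1 - y) (fun y => m + x 0 + bot y - y) top ?_ ?_ ?_
      · intro b hb
        obtain ⟨h5, h6⟩ := Finset.mem_filter.1 hb
        obtain ⟨h7, h8⟩ := Finset.mem_filter.1 h5
        have h1 := hE b (hE' h7)
        omega
      · intro b hb
        obtain ⟨h5, h6⟩ := Finset.mem_filter.1 hb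
        obtain ⟨h7, h8⟩ := Finset.mem_filter.1 h5
        have h1 := hE b (hE' h7)
        have h3 := h0 b h7
        have h9 := hs b h7 h3
        simp only [zero_add] at h9
        omega
      · intro a ha b hb hab
        have h3 := (Finset.mem_filter.1 ha).2
        have h4 := (Finset.mem_filter.1 hb).2
        omega
    have cR2 : Cov m (2 * n + 1) R2 := by
      refine ih (fun p => x (p + 1)) R2 ((Finset.filter_subset _ _).trans hE')
        (fun a ha => (Finset.mem_filter.1 ha).2) (fun p hp => hx (p + 1) (by omega))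
        (fun p hp a ha h => hstep (p + 1) (by omega) a (Finset.mem_filter.1 ha).1 h)
        (fun a ha h => ?_)
      exact hlast a (Finset.mem_filter.1 ha).1 h
    have cR : Cov m (1 + (2 * n + 1)) R := by
      refine cov_cut t_cut t_sbs (v₁ := 1) (v₂ := 0) (D₁ := R1) (D₂ := R2) ?_ cR1 cR2 ?_
      · intro a ha b hb
        have h3 := (Finset.mem_filter.1 ha).2
        have h4 := (Finset.mem_filter.1 hb).2
        omega
      · intro a ha
        rw [Finset.mem_union]
        by_cases h : a.1 < x 1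
        · exact Or.inl (Finset.mem_filter.2 ⟨ha, h⟩)
        · exact Or.inr (Finset.mem_filter.2 ⟨(Finset.mem_filter.1 ha).1, by omega⟩)
    have e : 2 * (n + 1) + 1 = 1 + (1 + (2 * n + 1)) := by ring
    rw [e]
    refine cov_cut t_cut t_sbs (v₁ := v₁) (v₂ := v₂) (D₁ := A) (D₂ := R) ?_ cA cR ?_
    · intro a ha b hb
      obtain ⟨h5, h6⟩ := Finset.mem_filter.1 ha
      obtain ⟨h7, h8⟩ := Finset.mem_filter.1 hb
      exact hcut (m + x 0) a (hE' h5) b (hE' h7) h6 h8
    · intro a ha
      rw [Finset.mem_union]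
      by_cases h : a.1 + a.2 < m + x 0 + bot a.1
      · exact Or.inl (Finset.mem_filter.2 ⟨ha, h⟩)
      · exact Or.inr (Finset.mem_filter.2 ⟨ha, by omega⟩)

end Pool.TRN
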