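import Pool.Agent.H7.TRN.Lay
import Pool.Agent.H55.TRN.UPR

/-!
# TRN: the two bottom layers of the triangle
-/

set_option autoImplicit false

namespace Pool.TRN

open MvPolynomial Pool.FOS

/-- The lower of the two layers, to the right of the column `l`. -/
theorem low_layer (d H D l w W P : ℕ) (hw : w * (d + 2) ≤ l) (hW : W + H = 2 * d + 3 + w)
    (hWd : d + 2 ≤ W) (hD : D ≤ d + l + (P * W + P * (P - 1) / 2))
    (E : Finset (ℕ × ℕ)) (hE : ∀ a ∈ E, l ≤ a.1 ∧ a.1 + (d + 2) * a.2 < (d + 2) * H ∧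
      a.1 + a.2 ≤ D) : Cov (d + 1) (2 * P + 1) E := by
  have tri : ∀ p : ℕ, (p + 1) * (p + 1 - 1) / 2 = p * (p - 1) / 2 + p := by
    intro p
    rw [Nat.add_sub_cancel]
    have e2 : (p + 1) * p = p * (p - 1) + p * 2 := by
      rcases p with _ | p
      · rfl
      · rw [Nat.add_sub_cancel]; ring
    rw [e2, Nat.add_mul_div_right _ _ (by norm_num)]
  have key := layer (d + 1) 1 1 E (fun _ => 0) (fun y => H - y / (d + 2)) ?_ ?_ P
    (fun p => l + (p * W + p * (p - 1) / 2)) E (Finset.Subset.refl _) ?_ ?_ ?_ ?_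
  · exact key
  · intro a ha
    obtain ⟨_, h2, _⟩ := hE a ha
    refine ⟨Nat.zero_le _, ?_⟩
    have h3 := Nat.div_mul_le_self a.1 (d + 2)
    by_contra hcon
    push Not at hcon
    have h4 : H ≤ a.2 + a.1 / (d + 2) := by omega
    have h5 : (d + 2) * H ≤ (d + 2) * (a.2 + a.1 / (d + 2)) := Nat.mul_le_mul_left _ h4
    nlinarith
  · intro t a _ b _ h1 h2
    omega
  · intro a ha
    have := (hE a ha).1
    simpa using this
  · intro p _
    rw [tri]
    have : p * W ≤ (p + 1) * W := Nat.mul_le_mul_right _ (by omega)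
    omega
  · intro p _ a ha h
    obtain ⟨_, h2, _⟩ := hE a ha
    rw [tri]
    have h5 : p * (d + 2) ≤ p * W := Nat.mul_le_mul_left _ hWd
    have h6 : (w + p) * (d + 2) ≤ a.1 := by
      have e1 : (w + p) * (d + 2) = w * (d + 2) + p * (d + 2) := by ring
      omega
    have h7 : w + p ≤ a.1 / (d + 2) := (Nat.le_div_iff_mul_le (by omega)).2 h6
    have h8 : w + p < H := by
      by_contra hcon
      push Not at hcon
      have : (d + 2) * H ≤ (d + 2) * (w + p) := Nat.mul_le_mul_left _ hcon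
      nlinarith
    have h9 : (p + 1) * W = p * W + W := by ring
    omega
  · intro a ha h
    obtain ⟨_, _, h3⟩ := hE a ha
    omega

/-- The upper of the two layers, to the right of the column `l`. -/
theorem up_layer (d H g D l W P β : ℕ) (hW : W + g = 2 * d + 3) (hDH : D ≤ (d + 2) * H)
    (hβ : (d + 1) * β + D < (d + 2) * H + (d + 1)) (hD : D ≤ d + l + P * W + β)
    (E : Finset (ℕ × ℕ)) (hE : ∀ a ∈ E, l ≤ a.1 ∧ (d + 2) * H ≤ a.1 + (d + 2) * a.2 ∧
      a.1 + (d + 2) * a.2 < (d + 2) * (H + g) ∧ a.1 + a.2 ≤ D) : Cov (d + 1) (2 * P + 1) E := by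
  have key := layer (d + 1) (d + 3) (d + 2) E (fun y => H - y / (d + 2))
    (fun y => (H + g) - y / (d + 2)) ?_ ?_ P
    (fun p => l + p * W) E (Finset.Subset.refl _) ?_ ?_ ?_ ?_
  · exact key
  · intro a ha
    obtain ⟨_, h2, h3, _⟩ := hE a ha
    have h4 := Nat.div_mul_le_self a.1 (d + 2)
    have h5 : a.1 < a.1 / (d + 2) * (d + 2) + (d + 2) := Nat.lt_div_mul_add (by omega)
    constructor
    · by_contra hcon
      push Not at hcon
      have h6 : a.2 + a.1 / (d + 2) + 1 ≤ H := by omega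
      have h7 : (d + 2) * (a.2 + a.1 / (d + 2) + 1) ≤ (d + 2) * H := Nat.mul_le_mul_left _ h6
      nlinarith
    · by_contra hcon
      push Not at hcon
      have h6 : H + g ≤ a.2 + a.1 / (d + 2) := by omega
      have h7 : (d + 2) * (H + g) ≤ (d + 2) * (a.2 + a.1 / (d + 2)) := Nat.mul_le_mul_left _ h6
      nlinarith
  · intro t a ha b hb h1 h2
    obtain ⟨_, _, _, ha4⟩ := hE a ha
    obtain ⟨_, _, _, hb4⟩ := hE b hb
    have h4 := Nat.div_mul_le_self b.1 (d + 2)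
    have h5 : a.1 < a.1 / (d + 2) * (d + 2) + (d + 2) := Nat.lt_div_mul_add (by omega)
    have h6 : a.1 / (d + 2) ≤ H := by
      rw [Nat.div_le_iff_le_mul_add_pred (by omega)]
      omega
    have h7 : a.1 + a.2 + a.1 / (d + 2) + 1 ≤ t + H := by omega
    have h8 : t + H ≤ b.1 + b.2 + b.1 / (d + 2) := by omega
    have h9 : (d + 2) * (a.1 + a.2 + a.1 / (d + 2) + 1) ≤ (d + 2) * (b.1 + b.2 + b.1 / (d + 2)) :=
      Nat.mul_le_mul_left _ (h7.trans h8)
    nlinarith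
  · intro a ha
    have := (hE a ha).1
    simpa using this
  · intro p _
    have : p * W ≤ (p + 1) * W := Nat.mul_le_mul_right _ (by omega)
    omega
  · intro p _ a ha h
    have h9 : (p + 1) * W = p * W + W := by ring
    omega
  · intro a ha h
    obtain ⟨_, h2, h3, h4⟩ := hE a ha
    have h5 : β ≤ H - a.1 / (d + 2) := by
      have h6 := Nat.div_mul_le_self a.1 (d + 2)
      by_contra hcon
      push Not at hcon
      have h7 : a.1 < a.1 / (d + 2) * (d + 2) + (d + 2) := Nat.lt_div_mul_add (by omega)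
      -- `b = H - a.1 / (d + 2) ≤ a.2`
      have h8 : H ≤ a.2 + a.1 / (d + 2) := by
        by_contra hc
        push Not at hc
        have h9 : (d + 2) * (a.2 + a.1 / (d + 2) + 1) ≤ (d + 2) * H :=
          Nat.mul_le_mul_left _ hc
        nlinarith
      have h10 : H + 1 ≤ β + a.1 / (d + 2) := by omega
      have h11 : (d + 1) * (H + 1) ≤ (d + 1) * (β + a.1 / (d + 2)) := Nat.mul_le_mul_left _ h10
      nlinarith
    omega

/-- Both layers, to the right of the column `l`. -/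
theorem two_layers (d H g D l w W₁ W₂ P₁ P₂ β : ℕ) (hw : w * (d + 2) ≤ l)
    (hW₁ : W₁ + H = 2 * d + 3 + w) (hWd : d + 2 ≤ W₁)
    (hD₁ : D ≤ d + l + (P₁ * W₁ + P₁ * (P₁ - 1) / 2))
    (hW₂ : W₂ + g = 2 * d + 3) (hDH : D ≤ (d + 2) * H)
    (hβ : (d + 1) * β + D < (d + 2) * H + (d + 1)) (hD₂ : D ≤ d + l + P₂ * W₂ + β) :
    Cov (d + 1) (2 * P₁ + 1 + (2 * P₂ + 1)) ((Lo d (H + g) D).filter fun a => l ≤ a.1) := by
  classical
  have hE : ∀ a ∈ (Lo d (H + g) D).filter (fun a => l ≤ a.1), l ≤ a.1 ∧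
      a.1 + (d + 2) * a.2 < (d + 2) * (H + g) ∧ a.1 + a.2 ≤ D := by
    intro a ha
    obtain ⟨h1, h2⟩ := Finset.mem_filter.1 ha
    rw [Lo, Finset.mem_filter] at h1
    exact ⟨h2, h1.2.1, h1.2.2⟩
  set E := (Lo d (H + g) D).filter (fun a => l ≤ a.1) with hEd
  refine cov_cut t_cut t_sbs (v₁ := 1) (v₂ := d + 2)
    (D₁ := E.filter fun a => a.1 + (d + 2) * a.2 < (d + 2) * H)
    (D₂ := E.filter fun a => (d + 2) * H ≤ a.1 + (d + 2) * a.2) ?_
    (low_layer d H D l w W₁ P₁ hw hW₁ hWd hD₁ _ fun a ha => ?_)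
    (up_layer d H g D l W₂ P₂ β hW₂ hDH hβ hD₂ _ fun a ha => ?_) fun a ha => ?_
  · intro a ha b hb
    have h1 := (Finset.mem_filter.1 ha).2
    have h2 := (Finset.mem_filter.1 hb).2
    rw [one_mul, one_mul]
    exact h1.trans_le h2
  · obtain ⟨h1, h2⟩ := Finset.mem_filter.1 ha
    obtain ⟨h3, h4, h5⟩ := hE a h1
    exact ⟨h3, h2, h5⟩
  · obtain ⟨h1, h2⟩ := Finset.mem_filter.1 ha
    obtain ⟨h3, h4, h5⟩ := hE a h1
    exact ⟨h3, h2, h4, h5⟩
  · rw [Finset.mem_union]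
    rcases lt_or_ge (a.1 + (d + 2) * a.2) ((d + 2) * H) with h | h
    · exact Or.inl (Finset.mem_filter.2 ⟨ha, h⟩)
    · exact Or.inr (Finset.mem_filter.2 ⟨ha, h⟩)

/-- The seven-point box (proved elsewhere). -/
def BoxStmt : Prop :=
  ∀ A B m : ℕ, 8 * B + 7 * A < 28 * m →
    Cov m 7 (Finset.range (B + 1) ×ˢ Finset.range (A + 1))

/-- The triangle, no box. -/
theorem tri_two (d H g D K W₁ W₂ P₁ P₂ β : ℕ) (hD : D + 1 = H + g + K * (d + 1))
    (hW₁ : W₁ + H = 2 * d + 3) (hWd : d + 2 ≤ W₁)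
    (hD₁ : D ≤ d + (P₁ * W₁ + P₁ * (P₁ - 1) / 2))
    (hW₂ : W₂ + g = 2 * d + 3) (hDH : D ≤ (d + 2) * H)
    (hβ : (d + 1) * β + D < (d + 2) * H + (d + 1)) (hD₂ : D ≤ d + P₂ * W₂ + β) :
    Cov (d + 1) (K ^ 2 + (2 * P₁ + 1 + (2 * P₂ + 1))) (Tri D) := by
  classical
  have c := two_layers d H g D 0 0 W₁ W₂ P₁ P₂ β (by omega) (by omega) hWd (by omega) hW₂ hDH hβ
    (by omega)
  rw [add_comm (K ^ 2)]
  refine cov_cut t_cut t_sbs (v₁ := 1) (v₂ := d + 2) (D₁ := Lo d (H + g) D)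
    (D₂ := Up d (H + g) K) ?_ (t_sbs _ _ _ _ (fun a ha => Finset.mem_filter.2 ⟨ha, by omega⟩) c)
    (t_upr t_cut t_sbs (t_stu t_pel t_cut t_sbs) d (H + g) K) ?_
  · intro a ha b hb
    rw [Lo, Finset.mem_filter] at ha
    rw [Up, Finset.mem_filter] at hb
    rw [one_mul, one_mul]
    exact ha.2.1.trans_le hb.2.1
  · intro a ha
    rw [Tri, Finset.mem_filter] at ha
    rw [Finset.mem_union, Lo, Up, Finset.mem_filter, Finset.mem_filter, ← hD]
    rcases lt_or_ge (a.1 + (d + 2) * a.2) ((d + 2) * (H + g)) with h | h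
    · exact Or.inl ⟨ha.1, h, ha.2⟩
    · exact Or.inr ⟨ha.1, h, by omega⟩

/-- The triangle, with the box. -/
theorem tri_box (hbox : BoxStmt) (d H g D K l W₁ W₂ P₁ P₂ β : ℕ)
    (hD : D + 1 = H + g + K * (d + 1)) (hl : 8 * l + 7 * (H + g) < 28 * (d + 1) + 15)
    (hl2 : d + 2 ≤ l) (hg : 1 ≤ g)
    (hW₁ : W₁ + H = 2 * d + 4) (hWd : d + 2 ≤ W₁)
    (hD₁ : D ≤ d + l + (P₁ * W₁ + P₁ * (P₁ - 1) / 2))
    (hW₂ : W₂ + g = 2 * d + 3) (hDH : D ≤ (d + 2) * H)
    (hβ : (d + 1) * β + D < (d + 2) * H + (d + 1)) (hD₂ : D ≤ d + l + P₂ * W₂ + β) :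
    Cov (d + 1) (K ^ 2 + (7 + (2 * P₁ + 1 + (2 * P₂ + 1)))) (Tri D) := by
  classical
  have c := two_layers d H g D l 1 W₁ W₂ P₁ P₂ β (by omega) (by omega) hWd hD₁ hW₂ hDH hβ hD₂
  have c0 := hbox (H + g - 1) (l - 1) (d + 1) (by omega)
  have e1 : l - 1 + 1 = l := by omega
  have e2 : H + g - 1 + 1 = H + g := by omega
  rw [e1, e2] at c0
  have c1 : Cov (d + 1) (7 + (2 * P₁ + 1 + (2 * P₂ + 1))) (Lo d (H + g) D) := by
    refine cov_cut t_cut t_sbs (v₁ := 1) (v₂ := 0)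
      (D₁ := (Lo d (H + g) D).filter fun a => a.1 < l)
      (D₂ := (Lo d (H + g) D).filter fun a => l ≤ a.1) ?_ (t_sbs _ _ _ _ (fun a ha => ?_) c0) c ?_
    · intro a ha b hb
      have h1 := (Finset.mem_filter.1 ha).2
      have h2 := (Finset.mem_filter.1 hb).2
      omega
    · obtain ⟨h1, h2⟩ := Finset.mem_filter.1 ha
      rw [Lo, Finset.mem_filter] at h1
      rw [Finset.mem_product, Finset.mem_range, Finset.mem_range]
      refine ⟨h2, ?_⟩
      by_contra hcon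
      push Not at hcon
      have h3 : (d + 2) * (H + g) ≤ (d + 2) * a.2 := Nat.mul_le_mul_left _ hcon
      have h4 := h1.2.1
      omega
    · intro a ha
      rw [Finset.mem_union]
      rcases lt_or_ge a.1 l with h | h
      · exact Or.inl (Finset.mem_filter.2 ⟨ha, h⟩)
      · exact Or.inr (Finset.mem_filter.2 ⟨ha, h⟩)
  rw [add_comm (K ^ 2)]
  refine cov_cut t_cut t_sbs (v₁ := 1) (v₂ := d + 2) (D₁ := Lo d (H + g) D)
    (D₂ := Up d (H + g) K) ?_ c1
    (t_upr t_cut t_sbs (t_stu t_pel t_cut t_sbs) d (H + g) K) ?_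
  · intro a ha b hb
    rw [Lo, Finset.mem_filter] at ha
    rw [Up, Finset.mem_filter] at hb
    rw [one_mul, one_mul]
    exact ha.2.1.trans_le hb.2.1
  · intro a ha
    rw [Tri, Finset.mem_filter] at ha
    rw [Finset.mem_union, Lo, Up, Finset.mem_filter, Finset.mem_filter, ← hD]
    rcases lt_or_ge (a.1 + (d + 2) * a.2) ((d + 2) * (H + g)) with h | h
    · exact Or.inl ⟨ha.1, h, ha.2⟩
    · exact Or.inr ⟨ha.1, h, by omega⟩

end Pool.TRN
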